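import Pool.Agent.Q71.HZ.Ph

/-!
# The largest `P_H`-null subspaces are the hyperplanes
-/

namespace Pool.Agent.Results.MP_ab521b_an.NullSubspaces

open MeasureTheory Set Metric Q71.HZ

theorem finrank_real (n : ℕ) : Module.finrank ℝ (Cn n) = 2 * n := by
  rw [finrank_real_of_complex, finrank_euclideanSpace_fin]

theorem complexNull_of_ne_top {n : ℕ} (hn : 2 ≤ n) (V : Submodule ℂ (Cn n)) (hV : V ≠ ⊤) :
    ComplexNull n V := by
  intro μ hμ
  have h1 : V.restrictScalars ℝ ≠ ⊤ := by
    intro h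
    apply hV
    rw [eq_top_iff]
    intro x _
    have : x ∈ V.restrictScalars ℝ := by rw [h]; trivial
    exact this
  exact null_subspace hn hμ.1 (V.restrictScalars ℝ) h1

theorem not_null_top {n : ℕ} (hn : 2 ≤ n) : ∃ μ : Measure (Sph n), IsPH n μ ∧ μ univ ≠ 0 := by
  haveI := isProb (n := n) (by omega)
  exact ⟨sigma n, sigma_isPH (by omega), by rw [measure_univ]; exact one_ne_zero⟩

/-- **Answer to Q1**: for `n ≥ 2` every proper real subspace is null for every measure of
`P_E(𝕊)`; the largest complex dimension of a `P_H`-null complex subspace is `n - 1`, and the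
largest real dimension of a `P_H`-null real subspace is `2n - 1`. -/
theorem result (n : ℕ) (hn : 2 ≤ n) :
    (∀ μ : Measure (Sph n), IsPE n μ → ∀ V : Submodule ℝ (Cn n), V ≠ ⊤ →
      μ {u | u.1 ∈ V} = 0) ∧
    IsGreatest {d : ℕ | ∃ V : Submodule ℂ (Cn n), ComplexNull n V ∧ Module.finrank ℂ V = d}
      (n - 1) ∧
    IsGreatest {d : ℕ | ∃ V : Submodule ℝ (Cn n), RealNull n V ∧ Module.finrank ℝ V = d}
      (2 * n - 1) := by
  have hfc : Module.finrank ℂ (Cn n) = n := finrank_euclideanSpace_fin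
  have hfr := finrank_real n
  obtain ⟨μ, hμ, hμ1⟩ := not_null_top hn
  refine ⟨fun μ hμ V hV => null_subspace hn hμ V hV, ⟨?_, ?_⟩, ⟨?_, ?_⟩⟩
  · -- a complex hyperplane
    let f : Module.Dual ℂ (Cn n) := (EuclideanSpace.proj (⟨0, by omega⟩ : Fin n) :
      Cn n →L[ℂ] ℂ).toLinearMap
    have hf : f ≠ 0 := by
      intro h
      have h1 := LinearMap.congr_fun h (EuclideanSpace.single (⟨0, by omega⟩ : Fin n) (1 : ℂ))
      simp [f] at h1
    have h2 := Module.Dual.finrank_ker_add_one_of_ne_zero hf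
    rw [hfc] at h2
    refine ⟨LinearMap.ker f, complexNull_of_ne_top hn _ ?_, by omega⟩
    intro h
    exact hf (LinearMap.ker_eq_top.1 h)
  · rintro d ⟨V, hV, rfl⟩
    have h1 : V ≠ ⊤ := by
      rintro rfl
      apply hμ1
      have := hV μ hμ
      simpa using this
    have h2 := Submodule.finrank_lt h1
    omega
  · -- a real hyperplane
    let f : Module.Dual ℝ (Cn n) := Complex.reLm ∘ₗ ((EuclideanSpace.proj
      (⟨0, by omega⟩ : Fin n) : Cn n →L[ℂ] ℂ).toLinearMap.restrictScalars ℝ)
    have hf : f ≠ 0 := by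
      intro h
      have h1 := LinearMap.congr_fun h (EuclideanSpace.single (⟨0, by omega⟩ : Fin n) (1 : ℂ))
      simp [f] at h1
    have h2 := Module.Dual.finrank_ker_add_one_of_ne_zero hf
    rw [hfr] at h2
    refine ⟨LinearMap.ker f, ?_, by omega⟩
    intro μ hμ
    refine null_subspace hn hμ.1 _ ?_
    intro h
    exact hf (LinearMap.ker_eq_top.1 h)
  · rintro d ⟨V, hV, rfl⟩
    have h1 : V ≠ ⊤ := by
      rintro rfl
      apply hμ1
      have := hV μ hμ
      simpa using this
    have h2 := Submodule.finrank_lt h1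
    omega

end Pool.Agent.Results.MP_ab521b_an.NullSubspaces
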